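import Mathlib
import Pool.Agent.H16.QuadCF

set_option autoImplicit false

namespace Pool.Agent.Results.MP_c624c9_nt.Fails375

theorem result :
    ¬ (∀ k : ℕ, ¬ IsSquare k → ∀ i : ℕ, ∀ d : ℚ, d = Real.convergent (√(k : ℝ)) i →
        IsLeast {m : ℕ | ∃ R : ℤ, 4 * Real.convergent (√(k : ℝ)) m ^ 2 /
          (k - Real.convergent (√(k : ℝ)) m ^ 2) = R} i →
        ∀ P : ℚ → Prop, (∀ q, P q ↔ 0 < q ∧ |q.num ^ 2 - k * (q.den : ℤ) ^ 2| = 1) →
        ∀ n j : ℕ, IsLeast {m : ℕ | P ((fun x : ℚ => (d * x + k) / (x + d))^[m] d)} n →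
          IsLeast {m : ℕ | P (Real.convergent (√(k : ℝ)) m)} j →
          (fun x : ℚ => (d * x + k) / (x + d))^[n] d = Real.convergent (√(k : ℝ)) j) := by
  have s0 := Pool.Agent.H16.QuadCF.step 375 19 0 1 19 19 14 (by norm_num) (by norm_num) (by norm_num)
    (by norm_num) (by norm_num) (by norm_num) (by norm_num) (by norm_num)
  have s1 := Pool.Agent.H16.QuadCF.step 375 19 19 14 2 9 21 (by norm_num) (by norm_num) (by norm_num)
    (by norm_num) (by norm_num) (by norm_num) (by norm_num) (by norm_num)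
  have s2 := Pool.Agent.H16.QuadCF.step 375 19 9 21 1 12 11 (by norm_num) (by norm_num) (by norm_num)
    (by norm_num) (by norm_num) (by norm_num) (by norm_num) (by norm_num)
  have s3 := Pool.Agent.H16.QuadCF.step 375 19 12 11 2 10 25 (by norm_num) (by norm_num) (by norm_num)
    (by norm_num) (by norm_num) (by norm_num) (by norm_num) (by norm_num)
  have s4 := Pool.Agent.H16.QuadCF.step 375 19 10 25 1 15 6 (by norm_num) (by norm_num) (by norm_num)
    (by norm_num) (by norm_num) (by norm_num) (by norm_num) (by norm_num)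
  have s5 := Pool.Agent.H16.QuadCF.step 375 19 15 6 5 15 25 (by norm_num) (by norm_num) (by norm_num)
    (by norm_num) (by norm_num) (by norm_num) (by norm_num) (by norm_num)
  have s6 := Pool.Agent.H16.QuadCF.step 375 19 15 25 1 10 11 (by norm_num) (by norm_num) (by norm_num)
    (by norm_num) (by norm_num) (by norm_num) (by norm_num) (by norm_num)
  have s7 := Pool.Agent.H16.QuadCF.step 375 19 10 11 2 12 21 (by norm_num) (by norm_num) (by norm_num)
    (by norm_num) (by norm_num) (by norm_num) (by norm_num) (by norm_num)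
  have s8 := Pool.Agent.H16.QuadCF.step 375 19 12 21 1 9 14 (by norm_num) (by norm_num) (by norm_num)
    (by norm_num) (by norm_num) (by norm_num) (by norm_num) (by norm_num)
  have s9 := Pool.Agent.H16.QuadCF.step 375 19 9 14 2 19 1 (by norm_num) (by norm_num) (by norm_num)
    (by norm_num) (by norm_num) (by norm_num) (by norm_num) (by norm_num)
  simp only [Int.cast_zero, Int.cast_one, zero_add, div_one] at s0
  have c0 : Real.convergent (√((375 : ℕ) : ℝ)) 0 = 19 / 1 := by
    rw [Real.convergent_zero, s0.1]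
    norm_num
  have c1 : Real.convergent (√((375 : ℕ) : ℝ)) 1 = 39 / 2 := by
    rw [Real.convergent_succ, s0.1, s0.2, Real.convergent_zero, s1.1]
    norm_num
  have c2 : Real.convergent (√((375 : ℕ) : ℝ)) 2 = 58 / 3 := by
    rw [Real.convergent_succ, s0.1, s0.2, Real.convergent_succ, s1.1, s1.2, Real.convergent_zero, s2.1]
    norm_num
  have c3 : Real.convergent (√((375 : ℕ) : ℝ)) 3 = 155 / 8 := by
    rw [Real.convergent_succ, s0.1, s0.2, Real.convergent_succ, s1.1, s1.2, Real.convergent_succ, s2.1, s2.2, Real.convergent_zero, s3.1]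
    norm_num
  have c4 : Real.convergent (√((375 : ℕ) : ℝ)) 4 = 213 / 11 := by
    rw [Real.convergent_succ, s0.1, s0.2, Real.convergent_succ, s1.1, s1.2, Real.convergent_succ, s2.1, s2.2, Real.convergent_succ, s3.1, s3.2, Real.convergent_zero, s4.1]
    norm_num
  have c5 : Real.convergent (√((375 : ℕ) : ℝ)) 5 = 1220 / 63 := by
    rw [Real.convergent_succ, s0.1, s0.2, Real.convergent_succ, s1.1, s1.2, Real.convergent_succ, s2.1, s2.2, Real.convergent_succ, s3.1, s3.2, Real.convergent_succ, s4.1, s4.2, Real.convergent_zero, s5.1]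
    norm_num
  have c6 : Real.convergent (√((375 : ℕ) : ℝ)) 6 = 1433 / 74 := by
    rw [Real.convergent_succ, s0.1, s0.2, Real.convergent_succ, s1.1, s1.2, Real.convergent_succ, s2.1, s2.2, Real.convergent_succ, s3.1, s3.2, Real.convergent_succ, s4.1, s4.2, Real.convergent_succ, s5.1, s5.2, Real.convergent_zero, s6.1]
    norm_num
  have c7 : Real.convergent (√((375 : ℕ) : ℝ)) 7 = 4086 / 211 := by
    rw [Real.convergent_succ, s0.1, s0.2, Real.convergent_succ, s1.1, s1.2, Real.convergent_succ, s2.1, s2.2, Real.convergent_succ, s3.1, s3.2, Real.convergent_succ, s4.1, s4.2, Real.convergent_succ, s5.1, s5.2, Real.convergent_succ, s6.1, s6.2, Real.convergent_zero, s7.1]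
    norm_num
  have c8 : Real.convergent (√((375 : ℕ) : ℝ)) 8 = 5519 / 285 := by
    rw [Real.convergent_succ, s0.1, s0.2, Real.convergent_succ, s1.1, s1.2, Real.convergent_succ, s2.1, s2.2, Real.convergent_succ, s3.1, s3.2, Real.convergent_succ, s4.1, s4.2, Real.convergent_succ, s5.1, s5.2, Real.convergent_succ, s6.1, s6.2, Real.convergent_succ, s7.1, s7.2, Real.convergent_zero, s8.1]
    norm_num
  have c9 : Real.convergent (√((375 : ℕ) : ℝ)) 9 = 15124 / 781 := by
    rw [Real.convergent_succ, s0.1, s0.2, Real.convergent_succ, s1.1, s1.2, Real.convergent_succ, s2.1, s2.2, Real.convergent_succ, s3.1, s3.2, Real.convergent_succ, s4.1, s4.2, Real.convergent_succ, s5.1, s5.2, Real.convergent_succ, s6.1, s6.2, Real.convergent_succ, s7.1, s7.2, Real.convergent_succ, s8.1, s8.2, Real.convergent_zero, s9.1]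
    norm_num
  intro H
  have h := H 375 (by decide +kernel) 3 (155 / 8) c3.symm ⟨⟨-3844, by rw [c3]; norm_num⟩, ?_⟩
    (fun q => 0 < q ∧ |q.num ^ 2 - (375 : ℕ) * (q.den : ℤ) ^ 2| = 1) (fun q => Iff.rfl) 4 9
    ⟨by show _ ∧ _; decide +kernel, ?_⟩ ⟨by show _ ∧ _; rw [c9]; decide +kernel, ?_⟩
  · rw [c9] at h
    revert h
    decide +kernel
  · rintro m ⟨R, hR⟩
    by_contra hc
    have hd := congrArg Rat.den hR
    rw [Rat.den_intCast] at hd
    have : m = 0 ∨ m = 1 ∨ m = 2 := by omega
    rcases this with rfl | rfl | rfl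
    · rw [c0] at hd; revert hd; decide +kernel
    · rw [c1] at hd; revert hd; decide +kernel
    · rw [c2] at hd; revert hd; decide +kernel
  · intro m hm
    by_contra hc
    have hm' := hm.2
    have : m = 0 ∨ m = 1 ∨ m = 2 ∨ m = 3 := by omega
    rcases this with rfl | rfl | rfl | rfl <;> revert hm' <;> decide +kernel
  · intro m hm
    by_contra hc
    have hm' := hm.2
    have : m = 0 ∨ m = 1 ∨ m = 2 ∨ m = 3 ∨ m = 4 ∨ m = 5 ∨ m = 6 ∨ m = 7 ∨ m = 8 := by omega
    rcases this with rfl | rfl | rfl | rfl | rfl | rfl | rfl | rfl | rfl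
    · rw [c0] at hm'; revert hm'; decide +kernel
    · rw [c1] at hm'; revert hm'; decide +kernel
    · rw [c2] at hm'; revert hm'; decide +kernel
    · rw [c3] at hm'; revert hm'; decide +kernel
    · rw [c4] at hm'; revert hm'; decide +kernel
    · rw [c5] at hm'; revert hm'; decide +kernel
    · rw [c6] at hm'; revert hm'; decide +kernel
    · rw [c7] at hm'; revert hm'; decide +kernel
    · rw [c8] at hm'; revert hm'; decide +kernel

end Pool.Agent.Results.MP_c624c9_nt.Fails375
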